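import Pool.Agent.L7h31.CP.Stm

/-!
# Part IMG of project CP (helper75)
-/

set_option autoImplicit false

namespace Pool.Agent.L7h75.CP

open scoped BigOperators Topology
open Pool.Agent.L7h31.CE (HS IsPolytope IsFace IsTiling Monohedral Isohedral corona CondB E mk hor ver)
open Pool.Agent.L7h31.CP

/-- local coordinates of the image -/
theorem lc_img {r : ℕ} (g : E r → E r) (σ : Equiv.Perm (Fin r)) (s b : Fin r → ℤ) (δ β : ℤ)
    (hg : ∀ z, (∀ a, hor (g z) (σ a) = s a * hor z a + b (σ a)) ∧ ver (g z) = δ * ver z + β)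
    (i j : ℤ) (h1 : δ = 1 → j = i + β) (h2 : δ = -1 → j = β - i - 1) (hδ : δ = 1 ∨ δ = -1)
    (hv : ∀ a, vz r j (σ a) = δ * s a * vz r i a) (z : E r) (a : Fin r) :
    lc j (g z) (σ a) = s a * lc i z a + b (σ a) +
      (if δ = -1 then (s a : ℝ) * (vz r i a : ℝ) else 0) := by
  have hh := (hg z).1 a
  have hvv := (hg z).2
  have hva : (vz r j (σ a) : ℝ) = δ * s a * vz r i a := by
    rw [hv a]; push_cast; ring
  unfold lc
  rw [hh, hvv, hva]
  rcases hδ with rfl | rfl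
  · have hj : (j : ℝ) = i + β := by rw [h1 rfl]; push_cast; ring
    rw [hj]
    norm_num
    ring
  · have hj : (j : ℝ) = β - i - 1 := by rw [h2 rfl]; push_cast; ring
    rw [hj]
    norm_num
    ring

theorem mem_img {r : ℕ} (g : E r → E r) (σ : Equiv.Perm (Fin r)) (s b : Fin r → ℤ) (δ β : ℤ)
    (hs : ∀ a, s a = 1 ∨ s a = -1)
    (hg : ∀ z, (∀ a, hor (g z) (σ a) = s a * hor z a + b (σ a)) ∧ ver (g z) = δ * ver z + β)
    (i j : ℤ) (ν μ : Fin r → ℤ)
    (h1 : δ = 1 → j = i + β) (h2 : δ = -1 → j = β - i - 1) (hδ : δ = 1 ∨ δ = -1)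
    (hv : ∀ a, vz r j (σ a) = δ * s a * vz r i a)
    (hμ : ∀ a, μ (σ a) = s a * ν a + b (σ a) + (if δ = -1 then s a * vz r i a else 0) +
      (if s a = -1 then -1 else 0)) (z : E r) :
    z ∈ tile i ν ↔ g z ∈ tile j μ := by
  have hver : ((i : ℝ) ≤ ver z ∧ ver z ≤ i + 1) ↔ ((j : ℝ) ≤ ver (g z) ∧ ver (g z) ≤ j + 1) := by
    rw [(hg z).2]
    rcases hδ with rfl | rfl
    · have hj : (j : ℝ) = i + β := by rw [h1 rfl]; push_cast; ring
      rw [hj]
      push_cast
      constructor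
      · rintro ⟨h, h'⟩; constructor <;> linarith
      · rintro ⟨h, h'⟩; constructor <;> linarith
    · have hj : (j : ℝ) = β - i - 1 := by rw [h2 rfl]; push_cast; ring
      rw [hj]
      push_cast
      constructor
      · rintro ⟨h, h'⟩; constructor <;> linarith
      · rintro ⟨h, h'⟩; constructor <;> linarith
  have hhor : ∀ a, ((ν a : ℝ) ≤ lc i z a ∧ lc i z a ≤ ν a + 1) ↔
      ((μ (σ a) : ℝ) ≤ lc j (g z) (σ a) ∧ lc j (g z) (σ a) ≤ μ (σ a) + 1) := by
    intro a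
    rw [lc_img g σ s b δ β hg i j h1 h2 hδ hv z a]
    have hm : (μ (σ a) : ℝ) = s a * ν a + b (σ a) +
        (if δ = -1 then (s a : ℝ) * (vz r i a : ℝ) else 0) + (if s a = -1 then -1 else 0) := by
      rw [hμ a]; push_cast; ring
    rw [hm]
    generalize (if δ = -1 then (s a : ℝ) * (vz r i a : ℝ) else 0) = w
    rcases hs a with h | h
    · rw [h]
      norm_num
      intro _
      constructor <;> intro h' <;> linarith
    · rw [h]
      norm_num
      constructor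
      · rintro ⟨h, h'⟩; constructor <;> linarith
      · rintro ⟨h, h'⟩; constructor <;> linarith
  constructor
  · rintro ⟨ha, hb, hc⟩
    obtain ⟨ha', hb'⟩ := hver.1 ⟨ha, hb⟩
    refine ⟨ha', hb', fun a => ?_⟩
    obtain ⟨c, rfl⟩ := σ.surjective a
    exact (hhor c).1 (hc c)
  · rintro ⟨ha, hb, hc⟩
    obtain ⟨ha', hb'⟩ := hver.2 ⟨ha, hb⟩
    exact ⟨ha', hb', fun a => (hhor a).2 (hc (σ a))⟩

/-- part IMG -/
theorem s_IMG : S_IMG := by
  intro r g σ s b δ β hs hδ hg i j ν μ h1 h2 hv hμ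
  have key := mem_img (fun z => g z) σ s b δ β hs hg i j ν μ h1 h2 hδ hv hμ
  ext z
  constructor
  · rintro ⟨w, hw, rfl⟩
    exact (key w).1 hw
  · intro hz
    obtain ⟨w, rfl⟩ := g.surjective z
    exact ⟨w, (key w).2 hz, rfl⟩

end Pool.Agent.L7h75.CP
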